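import Pool.Agent.Q196.AB.Main

/-!
# Affine Baire-one maps into the unit ball

Q1: if `E` has the bounded approximation property (more generally, the approximation property), then
every affine map in `C₁(X, B_E)` is a pointwise limit of continuous affine maps with values in the
unit ball `B_E` itself.

Outline.  Let `f n → f`, with `f n : X → B_E` continuous.  If no convex combination of the `f n` is
uniformly close to a continuous affine map with values in `B_E`, then some functional `μ` on
`C(X, E)` is at least `c` on all `f n` and at most `c - δ` on the continuous affine maps into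
`B_E`.  A norm preserving extension `ν` of the restriction of `μ` to the continuous affine maps has
norm at most `c - δ`, and `μ - ν` vanishes on the continuous affine maps.  The main point, proved in
the imported files, is that such a functional is arbitrarily small on some `f n`; this contradicts
`c ≤ μ (f n) ≤ (c - δ) + (μ - ν) (f n)`.
-/

namespace Pool.Agent.Results.MP_8da836_an.BallValued

open Filter Topology

/-- The approximation property: the identity is approximated on compact sets by bounded operators of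
finite rank. -/
def HasAP (𝕜 : Type*) [RCLike 𝕜] (E : Type*) [NormedAddCommGroup E] [NormedSpace 𝕜 E] : Prop :=
  ∀ K : Set E, IsCompact K → ∀ ε > 0, ∃ T : E →L[𝕜] E,
    FiniteDimensional 𝕜 (LinearMap.range (T : E →ₗ[𝕜] E)) ∧ ∀ x ∈ K, ‖T x - x‖ < ε

/-- The bounded approximation property: for some `lam ≥ 1` the operators can be chosen of norm at
most `lam`. -/
def HasBAP (𝕜 : Type*) [RCLike 𝕜] (E : Type*) [NormedAddCommGroup E] [NormedSpace 𝕜 E] : Prop :=
  ∃ lam : ℝ, 1 ≤ lam ∧ ∀ K : Set E, IsCompact K → ∀ ε > 0, ∃ T : E →L[𝕜] E,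
    FiniteDimensional 𝕜 (LinearMap.range (T : E →ₗ[𝕜] E)) ∧ ‖T‖ ≤ lam ∧ ∀ x ∈ K, ‖T x - x‖ < ε

variable {V E : Type*} [AddCommGroup V] [Module ℝ V] [TopologicalSpace V]
  [NormedAddCommGroup E] [NormedSpace ℝ E] {X : Set V}

/-- `f` is affine: `f (t x + (1 - t) y) = t f x + (1 - t) f y` for `x, y ∈ X` and `t ∈ [0, 1]`. -/
def IsAffine (f : X → E) : Prop :=
  ∀ (x y z : X) (t : ℝ), 0 ≤ t → t ≤ 1 → (z : V) = t • (x : V) + (1 - t) • (y : V) →
    f z = t • f x + (1 - t) • f y

/-- `f ∈ C₁(X, L)`: `f` maps `X` into `L` and is a pointwise limit of a sequence of continuous maps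
`X → L`. -/
def BaireOne (L : Set E) (f : X → E) : Prop :=
  (∀ x, f x ∈ L) ∧ ∃ g : ℕ → X → E, (∀ n, Continuous (g n) ∧ ∀ x, g n x ∈ L) ∧
    ∀ x, Tendsto (fun n => g n x) atTop (𝓝 (f x))

/-- `f ∈ A₁(X, L)`: `f` maps `X` into `L` and is a pointwise limit of a sequence of continuous
affine maps `X → L`. -/
def AffineBaireOne (L : Set E) (f : X → E) : Prop :=
  (∀ x, f x ∈ L) ∧ ∃ g : ℕ → X → E, (∀ n, Continuous (g n) ∧ IsAffine (g n) ∧ ∀ x, g n x ∈ L) ∧
    ∀ x, Tendsto (fun n => g n x) atTop (𝓝 (f x))

/-- **Q1.** Let `E` be a real or complex normed space with the bounded approximation property, or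
only with the approximation property, and `X` a compact convex subset of a Hausdorff locally convex
space. Then every affine `f ∈ C₁(X, B_E)` belongs to `A₁(X, B_E)`. -/
theorem result (𝕜 : Type*) [RCLike 𝕜] (E : Type*) [NormedAddCommGroup E] [NormedSpace 𝕜 E]
    [NormedSpace ℝ E] [IsScalarTower ℝ 𝕜 E] (hE : HasBAP 𝕜 E ∨ HasAP 𝕜 E)
    (V : Type*) [AddCommGroup V] [Module ℝ V] [TopologicalSpace V] [IsTopologicalAddGroup V]
    [ContinuousSMul ℝ V] [LocallyConvexSpace ℝ V] [T2Space V]
    (X : Set V) (hX : IsCompact X) (hconv : Convex ℝ X) (f : X → E) (hf : IsAffine f)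
    (hf1 : BaireOne (Metric.closedBall (0 : E) 1) f) :
    AffineBaireOne (Metric.closedBall (0 : E) 1) f := by
  have hAP : HasAP 𝕜 E := by
    rcases hE with ⟨lam, _, h⟩ | h
    · intro K hK ε hε
      obtain ⟨T, hT, _, hTK⟩ := h K hK ε hε
      exact ⟨T, hT, hTK⟩
    · exact h
  obtain ⟨hfL, g, hg, hl⟩ := hf1
  obtain ⟨h, h1, h2⟩ := Pool.Agent.Q196.AB.main2 (Pool.Agent.Q196.AB.ap_real (𝕜 := 𝕜) hAP) hX hconv
    f hf g (fun n => (hg n).1) (fun n x => by simpa using (hg n).2 x) hl
  exact ⟨hfL, h, fun n => ⟨(h1 n).1, (h1 n).2.1, fun x => by simpa using (h1 n).2.2 x⟩, h2⟩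

end Pool.Agent.Results.MP_8da836_an.BallValued
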